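import Mathlib
import Pool.Graph.R_seed8.TH813.Rank

/-!
# An inequality of Ax type for the exponential derivations at a point

Let `K` be a field of complex numbers and `z` a point of `ℂⁿ`.  The exponential derivations at `z` are
the derivations `D` of `ℂ` over `K` with `D e^{z_i} = e^{z_i} D z_i` for all `i`.  If `w` is the
dimension of the space of the vectors `(D z_i)`, and `h` the dimension of the space of the rational
vectors `q` such that `∑ q_i z_i` is killed by all these `D`, then `trdeg K(z, e^z) ≥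
trdeg K(c, e^c) + (n - h) + w`, where `c` consists of `h` independent such combinations.
-/

set_option autoImplicit false

namespace Pool.Agent.Helper78.SC.Ax

open Pool.Agent.W252 Pool.Agent.W669.Gel Pool.Agent.TH813.Core Pool.Agent.TH813.Rank Module Finset

/-- derivations of `ℂ` over `K` -/
def VK (K : IntermediateField ℚ ℂ) : Submodule ℂ (Derivation ℚ ℂ ℂ) where
  carrier := {D | ∀ w ∈ K, D w = 0}
  add_mem' := by
    intro D D' hD hD' w hw
    rw [Derivation.add_apply, hD w hw, hD' w hw, add_zero]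
  zero_mem' := fun w _ => rfl
  smul_mem' := by
    intro c D hD w hw
    rw [Derivation.smul_apply, hD w hw, smul_zero]

theorem mem_VK {K : IntermediateField ℚ ℂ} {D : Derivation ℚ ℂ ℂ} :
    D ∈ VK K ↔ ∀ w ∈ K, D w = 0 := Iff.rfl

variable {n : ℕ}

/-- the exponential derivations at `z` over `K` -/
def Dl (K : IntermediateField ℚ ℂ) (z : Fin n → ℂ) : Submodule ℂ (Derivation ℚ ℂ ℂ) where
  carrier := {D | (∀ w ∈ K, D w = 0) ∧ ∀ i, dlog D (z i) = D (z i)}
  add_mem' := by
    intro D D' hD hD'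
    refine ⟨(VK K).add_mem hD.1 hD'.1, fun i => ?_⟩
    rw [dlog_add_der, hD.2, hD'.2, Derivation.add_apply]
  zero_mem' := ⟨(VK K).zero_mem, fun i => by simp [dlog]⟩
  smul_mem' := by
    intro c D hD
    refine ⟨(VK K).smul_mem c hD.1, fun i => ?_⟩
    rw [dlog_smul_der, hD.2, Derivation.smul_apply, smul_eq_mul]

theorem mem_Dl {K : IntermediateField ℚ ℂ} {z : Fin n → ℂ} {D : Derivation ℚ ℂ ℂ} :
    D ∈ Dl K z ↔ (∀ w ∈ K, D w = 0) ∧ ∀ i, dlog D (z i) = D (z i) := Iff.rfl

/-- the field of the constants of the exponential derivations -/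
noncomputable def CC (K : IntermediateField ℚ ℂ) (z : Fin n → ℂ) : IntermediateField ℚ ℂ where
  carrier := {w | ∀ D ∈ Dl K z, D w = 0}
  mul_mem' := by
    intro a b ha hb D hD
    rw [Derivation.leibniz, ha D hD, hb D hD, smul_zero, smul_zero, add_zero]
  add_mem' := by
    intro a b ha hb D hD
    rw [map_add, ha D hD, hb D hD, add_zero]
  algebraMap_mem' := fun r D _ => D.map_algebraMap r
  inv_mem' := by
    intro a ha D hD
    rw [Derivation.leibniz_inv, ha D hD, smul_zero]

variable {K : IntermediateField ℚ ℂ} {z : Fin n → ℂ}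

theorem mem_CC {w : ℂ} : w ∈ CC K z ↔ ∀ D ∈ Dl K z, D w = 0 := Iff.rfl

theorem le_CC : K ≤ CC K z := fun _ hw _ hD => hD.1 _ hw

theorem Dl_le : Dl K z ≤ VK (CC K z) := fun _ hD _ hw => hw _ hD

theorem VK_CC_le : VK (CC K z) ≤ VK K := fun _ hD _ hw => hD _ (le_CC hw)

/-- the form `dz_i - de^{z_i}/e^{z_i}` -/
noncomputable def om (z : Fin n → ℂ) (E : Derivation ℚ ℂ ℂ) (i : Fin n) : ℂ := E (z i) - dlog E (z i)

theorem om_bracket {D : Derivation ℚ ℂ ℂ} (hD : D ∈ Dl K z) (E : Derivation ℚ ℂ ℂ) (i : Fin n) :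
    om z ⁅D, E⁆ i = D (om z E i) := by
  have he : Complex.exp (z i) ≠ 0 := Complex.exp_ne_zero _
  have h1 : D (Complex.exp (z i)) = Complex.exp (z i) * D (z i) := by
    have := hD.2 i
    unfold dlog at this
    field_simp at this
    rw [this]
  unfold om dlog
  rw [Derivation.commutator_apply, Derivation.commutator_apply, map_sub, h1, div_eq_mul_inv,
    div_eq_mul_inv, Derivation.leibniz D, Derivation.leibniz_inv, Derivation.leibniz E, h1]
  simp only [smul_eq_mul]
  field_simp
  ring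

/-- the relations between the forms -/
noncomputable def Rel (K : IntermediateField ℚ ℂ) (z : Fin n → ℂ) : Submodule ℂ (Fin n → ℂ) where
  carrier := {a | ∀ E ∈ VK (CC K z), ∑ i, a i * om z E i = 0}
  add_mem' := by
    intro a b ha hb E hE
    simp only [Pi.add_apply, add_mul, sum_add_distrib, ha E hE, hb E hE, add_zero]
  zero_mem' := by
    intro E _
    simp
  smul_mem' := by
    intro c a ha E hE
    simp only [Pi.smul_apply, smul_eq_mul, mul_assoc]
    rw [← mul_sum, ha E hE, mul_zero]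

theorem bracket_mem {D E : Derivation ℚ ℂ ℂ} (hD : D ∈ Dl K z) (hE : E ∈ VK (CC K z)) :
    ⁅D, E⁆ ∈ VK (CC K z) := by
  intro w hw
  rw [Derivation.commutator_apply, hE w hw, hw D hD, map_zero, map_zero, sub_zero]

theorem der_rel {a : Fin n → ℂ} (ha : a ∈ Rel K z) {D : Derivation ℚ ℂ ℂ} (hD : D ∈ Dl K z) :
    (fun i => D (a i)) ∈ Rel K z := by
  intro E hE
  have h1 := congrArg D (ha E hE)
  rw [map_sum, map_zero] at h1
  have h2 := ha _ (bracket_mem hD hE)
  rw [← h1, ← sub_zero (∑ i, D (a i * om z E i)), ← h2, ← sum_sub_distrib]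
  refine sum_congr rfl (fun i _ => ?_)
  rw [om_bracket hD, Derivation.leibniz, smul_eq_mul, smul_eq_mul]
  ring

/-- the rational relations modulo the constants -/
noncomputable def Q (K : IntermediateField ℚ ℂ) (z : Fin n → ℂ) : Submodule ℚ (Fin n → ℚ) where
  carrier := {q | ∑ i, (q i : ℂ) * z i ∈ CC K z}
  add_mem' := by
    intro a b ha hb
    simp only [Set.mem_ofPred_eq, Pi.add_apply, Rat.cast_add, add_mul, sum_add_distrib]
    exact (CC K z).add_mem ha hb
  zero_mem' := by
    simp only [Set.mem_ofPred_eq, Pi.zero_apply, Rat.cast_zero, zero_mul, sum_const_zero]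
    exact (CC K z).zero_mem
  smul_mem' := by
    intro c a ha
    simp only [Set.mem_ofPred_eq, Pi.smul_apply, smul_eq_mul, Rat.cast_mul, mul_assoc]
    rw [← mul_sum]
    exact (CC K z).mul_mem ((CC K z).algebraMap_mem c) ha

theorem mem_Q {q : Fin n → ℚ} : q ∈ Q K z ↔ ∑ i, (q i : ℂ) * z i ∈ CC K z := Iff.rfl

/-- the complex space generated by the rational relations -/
noncomputable def S (K : IntermediateField ℚ ℂ) (z : Fin n → ℂ) : Submodule ℂ (Fin n → ℂ) :=
  Submodule.span ℂ {a | ∃ q ∈ Q K z, ∀ i, a i = (q i : ℂ)}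

theorem rat_mul (D : Derivation ℚ ℂ ℂ) (q : ℚ) (x : ℂ) : D ((q : ℂ) * x) = q * D x := by
  rw [← Rat.smul_def, ← Rat.smul_def]
  exact (D : ℂ →ₗ[ℚ] ℂ).map_smul _ _

/-- constant relations are combinations of rational ones -/
theorem rel_const {b : Fin n → ℂ} (hb : b ∈ Rel K z) (hc : ∀ i, b i ∈ CC K z) : b ∈ S K z := by
  classical
  have he : ∀ j, Complex.exp (z j) ≠ 0 := fun j => Complex.exp_ne_zero _
  have hsum : ∀ D : Derivation ℚ ℂ ℂ, (∀ w ∈ CC K z, D w = 0) →
      D (∑ i, b i * z i) = ∑ i, b i * D (z i) := by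
    intro D hD
    rw [map_sum]
    refine sum_congr rfl (fun i _ => ?_)
    rw [Derivation.leibniz, hD _ (hc i), smul_zero, add_zero, smul_eq_mul]
  have h0 : ∀ D : Derivation ℚ ℂ ℂ, (∀ w ∈ CC K z, D w = 0) →
      D (∑ i, b i * z i) = ∑ i, b i * (D (Complex.exp (z i)) / Complex.exp (z i)) := by
    intro D hD
    rw [hsum D hD, ← sub_eq_zero, ← sum_sub_distrib]
    have := hb D hD
    rw [← this]
    refine sum_congr rfl (fun i _ => ?_)
    unfold om dlog
    ring
  have h1 := Pool.Agent.TH813.Ros.exact (CC K z) b (fun j => Complex.exp (z j)) hc he _ h0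
  have h2 : ∀ D : Derivation ℚ ℂ ℂ, (∀ w ∈ CC K z, D w = 0) →
      ∑ i, b i * (D (Complex.exp (z i)) / Complex.exp (z i)) = 0 := by
    intro D hD
    rw [← h0 D hD, h1 D hD]
  have h3 : ∀ ψ : ℂ →ₗ[ℚ] ℚ, (fun i => ψ (b i)) ∈ Q K z := by
    intro ψ D hD
    have h4 := Pool.Agent.TH813.Ros.rational (CC K z) b (fun j => Complex.exp (z j)) hc he h2 ψ D
      (Dl_le hD)
    rw [map_sum, ← h4]
    refine sum_congr rfl (fun i _ => ?_)
    rw [rat_mul, ← hD.2 i]
    rfl
  let B := Basis.ofVectorSpace ℚ ℂ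
  let s : Finset _ := univ.biUnion (fun i => (B.repr (b i)).support)
  have h5 : b = ∑ l ∈ s, (B l : ℂ) • (fun i => ((B.coord l (b i) : ℚ) : ℂ)) := by
    funext i
    rw [Finset.sum_apply]
    have h6 : (B.repr (b i)).support ⊆ s := subset_biUnion_of_mem (fun i => (B.repr (b i)).support)
      (mem_univ i)
    have h7 : b i = ∑ l ∈ s, (B.repr (b i) l) • (B l : ℂ) := by
      conv_lhs => rw [← B.linearCombination_repr (b i), Finsupp.linearCombination_apply]
      exact Finsupp.sum_of_support_subset _ h6 _ (fun _ _ => zero_smul _ _)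
    conv_lhs => rw [h7]
    refine sum_congr rfl (fun l _ => ?_)
    rw [Pi.smul_apply, smul_eq_mul, Rat.smul_def, Basis.coord_apply, mul_comm]
  rw [h5]
  refine Submodule.sum_mem _ (fun l _ => Submodule.smul_mem _ _ (Submodule.subset_span ?_))
  exact ⟨fun i => B.coord l (b i), h3 (B.coord l), fun i => rfl⟩

/-- all relations are combinations of rational ones -/
theorem Rel_le_S : Rel K z ≤ S K z := by
  classical
  let N : (Fin n → ℂ) → ℕ := fun a => (univ.filter (fun i => a i ≠ 0)).card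
  suffices h : ∀ m : ℕ, ∀ a ∈ Rel K z, N a ≤ m → a ∈ S K z from fun a ha => h _ a ha le_rfl
  intro m
  induction m with
  | zero =>
    intro a _ h
    have h1 : a = 0 := by
      funext i
      by_contra hne
      have h2 : (univ.filter (fun i => a i ≠ 0)) = ∅ := card_eq_zero.1 (Nat.le_zero.1 h)
      have : i ∈ (univ.filter (fun i => a i ≠ 0)) := mem_filter.2 ⟨mem_univ _, hne⟩
      rw [h2] at this
      simp at this
    rw [h1]
    exact Submodule.zero_mem _
  | succ m ih =>
    intro a ha hN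
    by_cases ha0 : a = 0
    · rw [ha0]; exact Submodule.zero_mem _
    -- a relation with minimal support
    let T : Set (Fin n → ℂ) := {b | b ∈ Rel K z ∧ b ≠ 0 ∧ ∀ i, a i = 0 → b i = 0}
    have hT : T.Nonempty := ⟨a, ha, ha0, fun _ h => h⟩
    obtain ⟨b, hbT, hmin⟩ := (measure N).wf.has_min T hT
    obtain ⟨hb, hb0, hba⟩ := hbT
    obtain ⟨i0, hi0⟩ : ∃ i, b i ≠ 0 := by
      by_contra hcon
      push Not at hcon
      exact hb0 (funext hcon)
    let b' : Fin n → ℂ := (b i0)⁻¹ • b
    have hb'R : b' ∈ Rel K z := Submodule.smul_mem _ _ hb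
    have hb'1 : b' i0 = 1 := by
      change (b i0)⁻¹ * b i0 = 1
      exact inv_mul_cancel₀ hi0
    have hb'z : ∀ i, b i = 0 → b' i = 0 := by
      intro i hi
      change (b i0)⁻¹ * b i = 0
      rw [hi, mul_zero]
    have hconst : ∀ i, b' i ∈ CC K z := by
      intro i D hD
      by_contra hne
      have h1 : (fun i => D (b' i)) ∈ T := by
        refine ⟨der_rel hb'R hD, ?_, ?_⟩
        · intro h
          exact hne (congrFun h i)
        · intro j hj
          change D (b' j) = 0
          rw [hb'z j (hba j hj), map_zero]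
      have h2 := hmin _ h1
      apply h2
      change N _ < N _
      apply card_lt_card
      rw [Finset.ssubset_iff_of_subset]
      · refine ⟨i0, mem_filter.2 ⟨mem_univ _, hi0⟩, ?_⟩
        rw [mem_filter]
        rintro ⟨_, h3⟩
        apply h3
        change D (b' i0) = 0
        rw [hb'1]
        exact D.map_one_eq_zero
      · intro j hj
        rw [mem_filter] at hj ⊢
        refine ⟨mem_univ _, fun h4 => hj.2 ?_⟩
        change D (b' j) = 0
        rw [hb'z j h4, map_zero]
    have hb'S := rel_const hb'R hconst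
    have h5 : a - (a i0) • b' ∈ S K z := by
      apply ih
      · exact Submodule.sub_mem _ ha (Submodule.smul_mem _ _ hb'R)
      · refine Nat.lt_succ_iff.1 (lt_of_lt_of_le ?_ hN)
        have hai0 : a i0 ≠ 0 := fun h => hi0 (hba i0 h)
        apply card_lt_card
        rw [Finset.ssubset_iff_of_subset]
        · refine ⟨i0, mem_filter.2 ⟨mem_univ _, hai0⟩, ?_⟩
          rw [mem_filter]
          rintro ⟨_, h3⟩
          apply h3
          change a i0 - a i0 * b' i0 = 0
          rw [hb'1]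
          ring
        · intro j hj
          rw [mem_filter] at hj ⊢
          refine ⟨mem_univ _, fun h4 => hj.2 ?_⟩
          change a j - a i0 * b' j = 0
          rw [hb'z j (hba j h4), h4]
          ring
    have h6 : a = (a - (a i0) • b') + (a i0) • b' := by ring
    rw [h6]
    exact Submodule.add_mem _ h5 (Submodule.smul_mem _ _ hb'S)

/-! ### the inequality -/

/-- a basis of the rational relations, as a matrix -/
noncomputable def AA (K : IntermediateField ℚ ℂ) (z : Fin n → ℂ) :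
    Matrix (Fin (finrank ℚ (Q K z))) (Fin n) ℚ :=
  fun l => ((finBasis ℚ (Q K z)) l : Fin n → ℚ)

theorem finrank_S_le : finrank ℂ (S K z) ≤ finrank ℚ (Q K z) := by
  have h : S K z ≤ Submodule.span ℂ (Set.range fun (l : Fin (finrank ℚ (Q K z))) (i : Fin n) =>
      ((AA K z l i : ℚ) : ℂ)) := by
    refine Submodule.span_le.2 ?_
    rintro a ⟨q, hq, ha⟩
    have h1 : a = ∑ l, (((finBasis ℚ (Q K z)).repr ⟨q, hq⟩ l : ℚ) : ℂ) •
        (fun i : Fin n => ((AA K z l i : ℚ) : ℂ)) := by
      funext i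
      rw [ha i, Finset.sum_apply]
      have h2 := congrArg (fun x : Q K z => (x : Fin n → ℚ) i)
        ((finBasis ℚ (Q K z)).sum_repr ⟨q, hq⟩)
      simp only [Submodule.coe_sum, Finset.sum_apply] at h2
      rw [← h2]
      push_cast
      refine sum_congr rfl (fun l _ => ?_)
      change ((((finBasis ℚ (Q K z)).repr ⟨q, hq⟩ l * (((finBasis ℚ (Q K z)) l : Fin n → ℚ) i) : ℚ) : ℂ)) = _
      rw [Rat.cast_mul]
      rfl
    rw [SetLike.mem_coe, h1]
    exact Submodule.sum_mem _ (fun l _ => Submodule.smul_mem _ _ (Submodule.subset_span ⟨l, rfl⟩))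
  refine (Submodule.finrank_mono h).trans ?_
  refine (finrank_range_le_card _).trans ?_
  rw [Fintype.card_fin]

/-- `c = A z` -/
noncomputable def cz (K : IntermediateField ℚ ℂ) (z : Fin n → ℂ) : Fin (finrank ℚ (Q K z)) → ℂ :=
  comb (AA K z) z

theorem cz_mem (l : Fin (finrank ℚ (Q K z))) : cz K z l ∈ CC K z :=
  ((finBasis ℚ (Q K z)) l).2

theorem dlog_comb {m : ℕ} (A : Matrix (Fin m) (Fin n) ℚ) (D : Derivation ℚ ℂ ℂ) (l : Fin m) :
    dlog D (comb A z l) = ∑ j, (A l j : ℂ) * dlog D (z j) := (cc_comb A D z).2 l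

theorem der_comb {m : ℕ} (A : Matrix (Fin m) (Fin n) ℚ) (D : Derivation ℚ ℂ ℂ) (l : Fin m) :
    D (comb A z l) = ∑ j, (A l j : ℂ) * D (z j) := (cc_comb A D z).1 l

theorem dlog_Dl_comb {m : ℕ} (A : Matrix (Fin m) (Fin n) ℚ) {D : Derivation ℚ ℂ ℂ}
    (hD : D ∈ Dl K z) (l : Fin m) : dlog D (comb A z l) = D (comb A z l) := by
  rw [dlog_comb, der_comb]
  exact sum_congr rfl (fun j _ => by rw [hD.2])

theorem exp_cz_mem (l : Fin (finrank ℚ (Q K z))) : Complex.exp (cz K z l) ∈ CC K z := by
  intro D hD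
  rw [← dlog_eq_zero]
  have h1 := dlog_Dl_comb (AA K z) hD l
  have h2 : D (comb (AA K z) z l) = 0 := cz_mem l D hD
  rw [h2] at h1
  exact h1

/-- the rank over `K`, that is the transcendence degree of `K(z, e^z)` -/
noncomputable def rk (K : IntermediateField ℚ ℂ) {m : ℕ} (z : Fin m → ℂ) : ℕ :=
  finrank ℂ ((VK K).map (ev z))

/-- the values at `z` -/
noncomputable def zv {m : ℕ} (z : Fin m → ℂ) : Derivation ℚ ℂ ℂ →ₗ[ℂ] (Fin m → ℂ) where
  toFun := fun D i => D (z i)
  map_add' := fun _ _ => rfl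
  map_smul' := fun _ _ => rfl

/-- the dimension of the space of the values of the exponential derivations -/
noncomputable def wd (K : IntermediateField ℚ ℂ) (z : Fin n → ℂ) : ℕ :=
  finrank ℂ ((Dl K z).map (zv z))

theorem cc_comb_zero {D : Derivation ℚ ℂ ℂ} (hD : D ∈ VK (CC K z)) : cc D (cz K z) = 0 := by
  rw [cc_eq_zero]
  exact ⟨fun l => hD _ (cz_mem l), fun l => dlog_eq_zero.2 (hD _ (exp_cz_mem l))⟩

theorem step1 : rk K (cz K z) + finrank ℂ ((VK (CC K z)).map (ev z)) ≤ rk K z := by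
  let f : ((VK K).map (ev z) : Submodule ℂ _) →ₗ[ℂ] _ :=
    lm (AA K z) ∘ₗ ((VK K).map (ev z)).subtype
  have h1 := f.finrank_range_add_finrank_ker
  have h2 : LinearMap.range f = (VK K).map (ev (cz K z)) := by
    rw [LinearMap.range_comp, Submodule.range_subtype, ← Submodule.map_comp, lm_ev]
    rfl
  rw [h2] at h1
  have h3 : finrank ℂ ((VK (CC K z)).map (ev z)) ≤ finrank ℂ (LinearMap.ker f) := by
    have h4 : (VK (CC K z)).map (ev z) ≤
        (LinearMap.ker f).map ((VK K).map (ev z)).subtype := by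
      rintro _ ⟨D, hD, rfl⟩
      refine ⟨⟨ev z D, ⟨D, VK_CC_le hD, rfl⟩⟩, ?_, rfl⟩
      change lm (AA K z) (ev z D) = 0
      have h5 := cc_comb_zero hD
      have h6 := LinearMap.congr_fun (lm_ev (AA K z) z) D
      rw [LinearMap.comp_apply] at h6
      rw [h6]
      exact h5
    exact (Submodule.finrank_mono h4).trans (Submodule.finrank_map_le _ _)
  unfold rk
  omega

/-- differences -/
noncomputable def df (n : ℕ) : (Fin n ⊕ Fin n → ℂ) →ₗ[ℂ] (Fin n → ℂ) where
  toFun := fun x i => x (Sum.inl i) - x (Sum.inr i)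
  map_add' := fun x y => by funext i; simp only [Pi.add_apply]; ring
  map_smul' := fun c x => by funext i; simp only [Pi.smul_apply, smul_eq_mul, RingHom.id_apply]; ring

/-- a subspace of `kⁿ` and its orthogonal space -/
theorem finrank_orth (U R : Submodule ℂ (Fin n → ℂ))
    (hR : ∀ a : Fin n → ℂ, (∀ u ∈ U, ∑ i, a i * u i = 0) → a ∈ R) :
    n ≤ finrank ℂ R + finrank ℂ U := by
  let g : (Fin n → ℂ) →ₗ[ℂ] Module.Dual ℂ U :=
    { toFun := fun a =>
        { toFun := fun u => ∑ i, a i * (u : Fin n → ℂ) i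
          map_add' := fun u v => by simp [mul_add, sum_add_distrib]
          map_smul' := fun c u => by simp [mul_sum, mul_left_comm] }
      map_add' := fun a b => by
        ext u
        simp [add_mul, sum_add_distrib]
      map_smul' := fun c a => by
        ext u
        simp [mul_sum, mul_assoc] }
  have h1 := g.finrank_range_add_finrank_ker
  rw [finrank_fintype_fun_eq_card, Fintype.card_fin] at h1
  have h2 : finrank ℂ (LinearMap.range g) ≤ finrank ℂ U := by
    refine (Submodule.finrank_le _).trans ?_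
    rw [Subspace.dual_finrank_eq]
  have h3 : LinearMap.ker g ≤ R := by
    intro a ha
    apply hR
    intro u hu
    exact LinearMap.congr_fun (LinearMap.mem_ker.1 ha) (⟨u, hu⟩ : U)
  have h4 := Submodule.finrank_mono h3
  omega

theorem step2 : n + wd K z ≤ finrank ℚ (Q K z) + finrank ℂ ((VK (CC K z)).map (ev z)) := by
  let T := (VK (CC K z)).map (ev z)
  let f : T →ₗ[ℂ] (Fin n → ℂ) := df n ∘ₗ T.subtype
  have h1 := f.finrank_range_add_finrank_ker
  have h2 : n ≤ finrank ℂ (S K z) + finrank ℂ (LinearMap.range f) := by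
    apply finrank_orth
    intro a ha
    apply Rel_le_S
    intro E hE
    exact ha _ ⟨⟨ev z E, ⟨E, hE, rfl⟩⟩, rfl⟩
  have h3 : finrank ℂ ((Dl K z).map (zv z)) ≤ finrank ℂ (LinearMap.ker f) := by
    have h4 : (Dl K z).map (zv z) ≤ ((LinearMap.ker f).map T.subtype).map
        (LinearMap.funLeft ℂ ℂ (Sum.inl : Fin n → Fin n ⊕ Fin n)) := by
      rintro _ ⟨D, hD, rfl⟩
      refine ⟨ev z D, ⟨⟨ev z D, ⟨D, Dl_le hD, rfl⟩⟩, ?_, rfl⟩, rfl⟩
      change df n (ev z D) = 0
      funext i
      change D (z i) - dlog D (z i) = 0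
      rw [hD.2, sub_self]
    exact (Submodule.finrank_mono h4).trans
      ((Submodule.finrank_map_le _ _).trans (Submodule.finrank_map_le _ _))
  have h5 := finrank_S_le (K := K) (z := z)
  have h6 : finrank ℂ T = finrank ℂ ((VK (CC K z)).map (ev z)) := rfl
  unfold wd
  omega

/-- **The inequality of Ax type.** -/
theorem main : rk K (cz K z) + wd K z + n ≤ rk K z + finrank ℚ (Q K z) := by
  have h1 := step1 (K := K) (z := z)
  have h2 := step2 (K := K) (z := z)
  omega

theorem AA_indep : LinearIndependent ℚ (fun l => AA K z l) :=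
  (finBasis ℚ (Q K z)).linearIndependent.map' (Q K z).subtype (Submodule.ker_subtype _)

theorem wd_add_le : wd K z + finrank ℚ (Q K z) ≤ n := by
  classical
  let M : Matrix (Fin (finrank ℚ (Q K z))) (Fin n) ℂ := fun l i => ((AA K z l i : ℚ) : ℂ)
  have h1 : LinearIndependent ℂ M.row :=
    (linearIndependent_algebraMap_comp_iff (R := ℚ) (S := ℂ)
      (v := fun l : Fin (finrank ℚ (Q K z)) => AA K z l)).2 AA_indep
  have h2 : finrank ℂ (LinearMap.range M.mulVecLin) = finrank ℚ (Q K z) := by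
    have := h1.rank_matrix
    rw [Fintype.card_fin] at this
    exact this
  have h3 := M.mulVecLin.finrank_range_add_finrank_ker
  rw [finrank_fintype_fun_eq_card, Fintype.card_fin] at h3
  have h4 : (Dl K z).map (zv z) ≤ LinearMap.ker M.mulVecLin := by
    rintro _ ⟨D, hD, rfl⟩
    rw [LinearMap.mem_ker, Matrix.mulVecLin_apply]
    funext l
    have h5 : D (comb (AA K z) z l) = 0 := cz_mem l D hD
    rw [der_comb] at h5
    exact h5
  have h6 := Submodule.finrank_mono h4
  unfold wd
  omega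

theorem two_wd_le : 2 * wd K z ≤ rk K z := by
  have h1 := main (K := K) (z := z)
  have h2 := wd_add_le (K := K) (z := z)
  omega

/-- the theorem of Lindemann -/
theorem rk_pos (hK : ∀ w ∈ K, IsAlgebraic ℚ w) {m : ℕ} (c : Fin m → ℂ) (l : Fin m) (hc : c l ≠ 0) :
    1 ≤ rk K c := by
  rw [Nat.one_le_iff_ne_zero]
  intro h0
  have hV : ∀ D : Derivation ℚ ℂ ℂ, D ∈ VK K := fun D w hw =>
    Pool.Agent.H327R2.SC.der_alg (K := ℚ) (L := ℂ) ⊥ D (fun x hx => by
      obtain ⟨q, rfl⟩ := IntermediateField.mem_bot.1 hx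
      exact D.map_algebraMap q) (by
        have h1 := hK w hw
        exact h1.tower_top _)
  have h1 : ∀ D : Derivation ℚ ℂ ℂ, cc D c = 0 := by
    intro D
    have h2 : (VK K).map (ev c) = ⊥ := Submodule.finrank_eq_zero.1 h0
    have h3 : ev c D ∈ (VK K).map (ev c) := ⟨D, hV D, rfl⟩
    rw [h2, Submodule.mem_bot] at h3
    exact h3
  have h2 : IsAlgebraic ℚ (c l) := Pool.Agent.H327R2.SC.alg_of_killed (fun D => (cc_eq_zero.1 (h1 D)).1 l)
  have h3 : IsAlgebraic ℚ (Complex.exp (c l)) :=
    Pool.Agent.H327R2.SC.alg_of_killed (fun D => dlog_eq_zero.1 ((cc_eq_zero.1 (h1 D)).2 l))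
  have h4 := Pool.Agent.H327R2.SC.lw_algInd (fun _ : Fin 1 => c l) (fun _ => h2)
    ((linearIndependent_unique_iff (v := fun _ : Fin 1 => c l)).2 hc)
  exact ((algebraicIndependent_unique_type_iff).1 h4) h3

theorem cz_ne (hz : LinearIndependent ℚ z) (l : Fin (finrank ℚ (Q K z))) : cz K z l ≠ 0 := by
  intro h
  have h1 := Fintype.linearIndependent_iff.1 hz (AA K z l) (by
    rw [← h]
    exact sum_congr rfl (fun j _ => Rat.smul_def _ _))
  exact (AA_indep (K := K) (z := z)).ne_zero l (funext h1)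

theorem two_wd_lt (hK : ∀ w ∈ K, IsAlgebraic ℚ w) (hz : LinearIndependent ℚ z)
    (hn : rk K z < 2 * n) : 2 * wd K z < rk K z := by
  have h1 := main (K := K) (z := z)
  have h2 := wd_add_le (K := K) (z := z)
  rcases Nat.eq_zero_or_pos (finrank ℚ (Q K z)) with h0 | h0
  · omega
  · have h3 := rk_pos hK (cz K z) ⟨0, h0⟩ (cz_ne hz _)
    omega

end Pool.Agent.Helper78.SC.Ax
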