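import Mathlib
import Pool.Graph.R_seed8.H135R2.VS.Der
import Pool.Graph.R_seed8.H327R2.SC.Der

/-!
# Derivations of a field with prescribed values

A family `v` of elements is the family of the values of a derivation over `K` at the elements `x_s` if
and only if `∑ v_s (∂P/∂X_s)(x) = 0` for all polynomials `P` over `K` with `P(x) = 0`.
-/

set_option autoImplicit false

namespace Pool.Agent.Helper78.SC.Ext

open MvPolynomial Finset

variable {K L : Type*} [Field K] [Field L] [Algebra K L] {σ : Type*} [Fintype σ]

/-- the differential of `P` at `x` -/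
noncomputable def dv (x v : σ → L) (P : MvPolynomial σ K) : L := ∑ s, v s * aeval x (pderiv s P)

theorem dv_add (x v : σ → L) (P Q : MvPolynomial σ K) : dv x v (P + Q) = dv x v P + dv x v Q := by
  simp only [dv, map_add, mul_add, sum_add_distrib]

theorem dv_C (x v : σ → L) (a : K) : dv x v (C a : MvPolynomial σ K) = 0 := by
  simp [dv]

theorem dv_X (x v : σ → L) (s : σ) : dv x v (X s : MvPolynomial σ K) = v s := by
  classical
  unfold dv
  rw [sum_eq_single s]
  · rw [pderiv_X_self, map_one, mul_one]
  · intro t _ hts
    rw [pderiv_X_of_ne hts.symm, map_zero, mul_zero]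
  · intro h
    exact absurd (mem_univ s) h

theorem dv_mul (x v : σ → L) (P Q : MvPolynomial σ K) :
    dv x v (P * Q) = aeval x P * dv x v Q + aeval x Q * dv x v P := by
  simp only [dv, Derivation.leibniz, map_add, smul_eq_mul, map_mul, mul_add, sum_add_distrib,
    mul_sum]
  congr 1
  · exact sum_congr rfl (fun s _ => by ring)
  · exact sum_congr rfl (fun s _ => by ring)

theorem dv_sum (x v : σ → L) {ι : Type*} (t : Finset ι) (P : ι → MvPolynomial σ K) :
    dv x v (∑ i ∈ t, P i) = ∑ i ∈ t, dv x v (P i) := by
  simp only [dv, map_sum, mul_sum]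
  exact sum_comm

theorem dv_pow (x v : σ → L) (P : MvPolynomial σ K) (j : ℕ) :
    dv x v (P ^ j) = j * aeval x P ^ (j - 1) * dv x v P := by
  induction j with
  | zero =>
    have := dv_C (K := K) x v 1
    rw [C_1] at this
    rw [pow_zero, this]
    simp
  | succ j ih =>
    rw [pow_succ, dv_mul, ih, map_pow]
    cases j with
    | zero => simp
    | succ j =>
      simp only [Nat.add_sub_cancel]
      push_cast
      ring

/-- the chain rule -/
theorem der_eq_dv (D : Derivation K L L) (x : σ → L) (P : MvPolynomial σ K) :
    D (aeval x P) = dv x (fun s => D (x s)) P := by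
  induction P using MvPolynomial.induction_on with
  | C a => rw [dv_C, aeval_C]; exact D.map_algebraMap a
  | add p q hp hq => rw [map_add, map_add, hp, hq, dv_add]
  | mul_X p j hp =>
    rw [map_mul, aeval_X, Derivation.leibniz, hp, dv_mul, dv_X, aeval_X, smul_eq_mul, smul_eq_mul]

theorem dv_sub (x v w : σ → L) (P : MvPolynomial σ K) :
    dv x (fun s => v s - w s) P = dv x v P - dv x w P := by
  simp only [dv, sub_mul, sum_sub_distrib]

theorem dv_rename (x v : σ → L) (I : Set σ) (hv : ∀ i ∈ I, v i = 0) (g : MvPolynomial I K) :
    dv x v (rename (Subtype.val : I → σ) g) = 0 := by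
  induction g using MvPolynomial.induction_on with
  | C a => rw [rename_C, dv_C]
  | add p q hp hq => rw [map_add, dv_add, hp, hq, add_zero]
  | mul_X p j hp => rw [map_mul, rename_X, dv_mul, hp, dv_X, hv _ j.2, mul_zero, mul_zero, add_zero]

variable [CharZero K]

/-- an element which is algebraic over the algebra generated by the `x_i`, `i ∈ I` -/
theorem eq_zero_of_alg (x v : σ → L) (hv : ∀ P : MvPolynomial σ K, aeval x P = 0 → dv x v P = 0)
    (I : Set σ) (hI : ∀ i ∈ I, v i = 0) (s : σ)
    (hs : IsAlgebraic (Algebra.adjoin K (Set.range fun i : I => x i)) (x s)) : v s = 0 := by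
  classical
  set A := Algebra.adjoin K (Set.range fun i : I => x i) with hA
  have hex : ∃ m : ℕ, ∃ p : Polynomial A, p ≠ 0 ∧ Polynomial.aeval (x s) p = 0 ∧
      p.natDegree = m := by
    obtain ⟨p, hp, hp0⟩ := hs
    exact ⟨_, p, hp, hp0, rfl⟩
  obtain ⟨p, hp, hp0, hpd⟩ := Nat.find_spec hex
  have hmin := fun m h => Nat.find_min hex (m := m) h
  have : CharZero L := charZero_of_injective_algebraMap (algebraMap K L).injective
  have hd0 : p.natDegree ≠ 0 := by
    intro h
    rw [Polynomial.natDegree_eq_zero] at h
    obtain ⟨a, rfl⟩ := h
    rw [Polynomial.aeval_C] at hp0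
    have : a = 0 := Subtype.ext hp0
    rw [this, map_zero] at hp
    exact hp rfl
  have hder : Polynomial.aeval (x s) (Polynomial.derivative p) ≠ 0 := by
    intro h
    apply hmin (Polynomial.derivative p).natDegree
    · rw [← hpd]
      exact Polynomial.natDegree_derivative_lt hd0
    · refine ⟨Polynomial.derivative p, ?_, h, rfl⟩
      intro h1
      exact hd0 (Polynomial.derivative_eq_zero.1 h1)
  -- lift the coefficients
  have hlift : ∀ a : A, ∃ g : MvPolynomial I K, aeval x (rename (Subtype.val : I → σ) g) = (a : L) := by
    intro a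
    have h1 : (a : L) ∈ (aeval (R := K) (fun i : I => x i)).range := by
      rw [← Algebra.adjoin_range_eq_range_aeval]
      exact a.2
    obtain ⟨g, hg⟩ := h1
    refine ⟨g, ?_⟩
    rw [aeval_rename]
    exact hg
  choose g hg using hlift
  let P : MvPolynomial σ K := ∑ j ∈ range (p.natDegree + 1),
    rename (Subtype.val : I → σ) (g (p.coeff j)) * X s ^ j
  have hP0 : aeval x P = 0 := by
    rw [← hp0, Polynomial.aeval_eq_sum_range]
    simp only [P, map_sum, map_mul, map_pow, aeval_X, hg]
    rfl
  have h1 := hv P hP0
  have h2 : dv x v P = v s * Polynomial.aeval (x s) (Polynomial.derivative p) := by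
    simp only [P]
    have h3 : Polynomial.aeval (x s) (Polynomial.derivative p) =
        ∑ j ∈ range (p.natDegree + 1), (p.coeff j : L) * (j * x s ^ (j - 1)) := by
      conv_lhs => rw [p.as_sum_range_C_mul_X_pow]
      rw [map_sum, map_sum]
      refine sum_congr rfl (fun j _ => ?_)
      rw [Polynomial.derivative_C_mul_X_pow, map_mul, Polynomial.aeval_C, map_pow,
        Polynomial.aeval_X, map_mul, map_natCast]
      change (p.coeff j : L) * _ * _ = _
      ring
    rw [dv_sum, h3, mul_sum]
    refine sum_congr rfl (fun j _ => ?_)
    rw [dv_mul, dv_rename x v I hI, mul_zero, add_zero, dv_pow, dv_X, aeval_X, hg]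
    ring
  rw [h2] at h1
  exact (mul_eq_zero.1 h1).resolve_right hder

/-- **Derivations with prescribed values.** -/
theorem exists_der (x v : σ → L)
    (hv : ∀ P : MvPolynomial σ K, aeval x P = 0 → dv x v P = 0) :
    ∃ D : Derivation K L L, ∀ s, D (x s) = v s := by
  classical
  -- a maximal algebraically independent subfamily
  let T : Finset (Finset σ) := univ.filter (fun I => AlgebraicIndependent K (fun i : I => x i))
  have hT : T.Nonempty := by
    refine ⟨∅, mem_filter.2 ⟨mem_univ _, ?_⟩⟩
    have : IsEmpty (∅ : Finset σ) := inferInstance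
    exact algebraicIndependent_empty_type_iff.2 (algebraMap K L).injective
  obtain ⟨I, hIT, hmax⟩ := T.exists_max_image Finset.card hT
  have hI : AlgebraicIndependent K (fun i : I => x i) := (mem_filter.1 hIT).2
  obtain ⟨D, hD⟩ := Pool.Agent.H135R2.VS.exists_der hI (fun i : I => v i)
  refine ⟨D, fun s => ?_⟩
  have h1 : (fun s => v s - D (x s)) s = 0 := by
    apply eq_zero_of_alg (K := K) x (fun s => v s - D (x s)) ?_ (I : Set σ) ?_ s ?_
    · intro P hP
      rw [dv_sub, hv P hP, ← der_eq_dv, hP, map_zero, sub_zero]
    · intro i hi
      change v i - D (x i) = 0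
      rw [hD ⟨i, hi⟩, sub_self]
    · by_contra hcon
      have hsI : s ∉ I := by
        intro hs
        apply hcon
        have : x s = algebraMap (Algebra.adjoin K (Set.range fun i : (I : Set σ) => x i)) L
          ⟨x s, Algebra.subset_adjoin ⟨⟨s, hs⟩, rfl⟩⟩ := rfl
        rw [this]
        exact isAlgebraic_algebraMap _
      have h2 : AlgebraicIndependent K (fun o : Option (I : Set σ) => o.elim (x s) fun i => x i) :=
        (AlgebraicIndependent.option_iff_transcendental (x := fun i : (I : Set σ) => x i)
          hI (x s)).2 hcon
      have h3 : AlgebraicIndependent K (fun i : ↥(insert s I : Finset σ) => x i) := by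
        let e : ↥(insert s I : Finset σ) → Option ↥(I : Set σ) := fun i =>
          if h : (i : σ) ∈ I then some ⟨i, h⟩ else none
        have he : Function.Injective e := by
          intro i j hij
          by_cases hi : (i : σ) ∈ I
          · by_cases hj : (j : σ) ∈ I
            · simp only [e, dif_pos hi, dif_pos hj] at hij
              have h7 := Option.some.inj hij
              have h8 : (i : σ) = j := congrArg (fun k : ↥(I : Set σ) => (k : σ)) h7
              exact Subtype.ext h8
            · simp only [e, dif_pos hi, dif_neg hj] at hij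
              exact absurd hij (Option.some_ne_none _)
          · by_cases hj : (j : σ) ∈ I
            · simp only [e, dif_neg hi, dif_pos hj] at hij
              exact absurd hij.symm (Option.some_ne_none _)
            · have h4 := (mem_insert.1 i.2).resolve_right hi
              have h5 := (mem_insert.1 j.2).resolve_right hj
              exact Subtype.ext (h4.trans h5.symm)
        have h6 := h2.comp e he
        convert h6 using 1
        funext i
        by_cases hi : (i : σ) ∈ I
        · simp only [e, Function.comp_apply, dif_pos hi, Option.elim_some]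
        · simp only [e, Function.comp_apply, dif_neg hi, Option.elim_none]
          rw [(mem_insert.1 i.2).resolve_right hi]
      have h4 : insert s I ∈ T := mem_filter.2 ⟨mem_univ _, h3⟩
      have h5 := hmax _ h4
      rw [card_insert_of_notMem hsI] at h5
      omega
  exact (sub_eq_zero.1 h1).symm

end Pool.Agent.Helper78.SC.Ext
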