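import Mathlib

/-!
# The dimension of the zero set of analytic functions near a point
-/

set_option autoImplicit false

namespace Pool.Agent.Helper78.SC.Geo

open Filter Topology Module
open scoped NNReal ENNReal

variable {E : Type*} [NormedAddCommGroup E] [NormedSpace ℂ E] [FiniteDimensional ℂ E]

/-- a set on which a projection to a space of dimension `w` is antilipschitz -/
def Thin (w : ℕ) (s : Set E) : Prop :=
  ∃ (N : Submodule ℂ E) (π : E →L[ℂ] N) (C : ℝ≥0), finrank ℂ N ≤ w ∧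
    ∀ x ∈ s, ∀ y ∈ s, ‖x - y‖ ≤ C * ‖π x - π y‖

theorem Thin.mono {w : ℕ} {s t : Set E} (h : Thin w t) (hst : s ⊆ t) : Thin w s := by
  obtain ⟨N, π, C, h1, h2⟩ := h
  exact ⟨N, π, C, h1, fun x hx y hy => h2 x (hst hx) y (hst hy)⟩

theorem Thin.subsingleton {s : Set E} (h : Thin 0 s) : s.Subsingleton := by
  obtain ⟨N, π, C, h1, h2⟩ := h
  intro x hx y hy
  have h3 : Subsingleton N := finrank_zero_iff.1 (Nat.le_zero.1 h1)
  have h4 := h2 x hx y hy
  rw [Subsingleton.elim (π x) (π y), sub_self, norm_zero, mul_zero] at h4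
  exact sub_eq_zero.1 (norm_eq_zero.1 (le_antisymm h4 (norm_nonneg _)))

theorem Thin.dimH_le {w : ℕ} {s : Set E} (h : Thin w s) : dimH s ≤ ((2 * w : ℕ) : ℝ≥0∞) := by
  obtain ⟨N, π, C, h1, h2⟩ := h
  let g : s → N := fun x => π x
  have hg : AntilipschitzWith C g := by
    apply AntilipschitzWith.of_le_mul_dist
    intro x y
    rw [Subtype.dist_eq, dist_eq_norm, dist_eq_norm]
    exact h2 x x.2 y y.2
  have h3 : dimH s = dimH (Set.univ : Set s) := by
    conv_lhs => rw [← Subtype.coe_image_univ s]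
    exact isometry_subtype_coe.dimH_image _
  have h4 : FiniteDimensional ℝ N := FiniteDimensional.complexToReal N
  have h5 : finrank ℝ N = 2 * finrank ℂ N := finrank_real_of_complex N
  rw [h3]
  calc dimH (Set.univ : Set s) ≤ dimH (g '' Set.univ) := hg.le_dimH_image _
    _ ≤ dimH (Set.univ : Set N) := dimH_mono (Set.subset_univ _)
    _ = (finrank ℝ N : ℝ≥0∞) := Real.dimH_univ_eq_finrank N
    _ ≤ _ := by
      rw [h5]
      exact_mod_cast Nat.mul_le_mul_left 2 h1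

/-- the zero set near a point -/
theorem thin_near {ι : Type*} [Fintype ι] (f : ι → E → ℂ) (f' : ι → E →L[ℂ] ℂ) (z : E)
    (hf : ∀ i, HasStrictFDerivAt (f i) (f' i) z) (w : ℕ)
    (hw : finrank ℂ ↥(⨅ i, LinearMap.ker (f' i : E →ₗ[ℂ] ℂ)) ≤ w) :
    ∃ U ∈ 𝓝 z, Thin w (U ∩ {x | ∀ i, f i x = 0}) := by
  set N : Submodule ℂ E := ⨅ i, LinearMap.ker (f' i : E →ₗ[ℂ] ℂ) with hN
  obtain ⟨π₀, hπ₀⟩ := LinearMap.exists_leftInverse_of_injective N.subtype (Submodule.ker_subtype N)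
  let π : E →L[ℂ] N := LinearMap.toContinuousLinearMap π₀
  have hπ : ∀ x : N, π x = x := fun x => LinearMap.congr_fun hπ₀ x
  let F : E → (ι → ℂ) := fun x i => f i x
  let F' : E →L[ℂ] (ι → ℂ) := ContinuousLinearMap.pi f'
  have hF : HasStrictFDerivAt F F' z := hasStrictFDerivAt_pi.2 hf
  let G : E → N × (ι → ℂ) := fun x => (π x, F x)
  let G' : E →L[ℂ] N × (ι → ℂ) := π.prod F'
  have hG : HasStrictFDerivAt G G' z := (π.hasStrictFDerivAt).prodMk hF
  have hker : LinearMap.ker (G' : E →ₗ[ℂ] N × (ι → ℂ)) = ⊥ := by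
    rw [LinearMap.ker_eq_bot']
    intro v hv
    have h1 : π v = 0 := congrArg Prod.fst hv
    have h2 : F' v = 0 := congrArg Prod.snd hv
    have h3 : v ∈ N := by
      rw [hN, Submodule.mem_iInf]
      intro i
      exact congrFun h2 i
    have h4 := hπ ⟨v, h3⟩
    have h5 : π v = ⟨v, h3⟩ := h4
    rw [h1] at h5
    exact (congrArg Subtype.val h5).symm
  obtain ⟨C, hC0, hC⟩ := (G' : E →ₗ[ℂ] N × (ι → ℂ)).exists_antilipschitzWith hker
  obtain ⟨U, hU, happ⟩ := hG.approximates_deriv_on_nhds (c := (2 * C)⁻¹)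
    (Or.inr (by positivity))
  refine ⟨U, hU, N, π, 2 * C, hw, ?_⟩
  rintro x ⟨hxU, hx⟩ y ⟨hyU, hy⟩
  have h1 : ‖x - y‖ ≤ C * ‖G' (x - y)‖ := by
    have := hC.le_mul_dist x y
    rw [dist_eq_norm, dist_eq_norm] at this
    simpa using this
  have h2 : ‖G x - G y - G' (x - y)‖ ≤ ((2 * C)⁻¹ : ℝ≥0) * ‖x - y‖ := happ x hxU y hyU
  have h3 : ‖G x - G y‖ = ‖π x - π y‖ := by
    have h4 : G x - G y = (π x - π y, 0) := by
      have : F x - F y = 0 := by
        funext i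
        change f i x - f i y = 0
        rw [hx i, hy i, sub_zero]
      exact Prod.ext rfl this
    rw [h4, Prod.norm_def, norm_zero, max_eq_left (norm_nonneg _)]
  have h5 : ‖G' (x - y)‖ ≤ ‖G x - G y‖ + ‖G x - G y - G' (x - y)‖ := by
    have := norm_sub_le (G x - G y) (G x - G y - G' (x - y))
    rwa [sub_sub_cancel] at this
  have hCr : (0 : ℝ) < C := hC0
  have h6 : (C : ℝ) * (((2 * C)⁻¹ : ℝ≥0) * ‖x - y‖) = ‖x - y‖ / 2 := by
    push_cast
    field_simp
  push_cast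
  have h7 : ‖x - y‖ ≤ C * (‖π x - π y‖ + ((2 * C)⁻¹ : ℝ≥0) * ‖x - y‖) := by
    refine h1.trans ?_
    gcongr
    rw [← h3]
    linarith
  rw [mul_add, h6] at h7
  linarith

/-- from local to global -/
theorem cover {w : ℕ} {A : Set E} (hA : ∀ z ∈ A, ∃ U ∈ 𝓝 z, Thin w (U ∩ A)) :
    ∃ M : ℕ → Set E, (∀ i, Thin w (M i)) ∧ A ⊆ ⋃ i, M i := by
  have : SecondCountableTopology E := by
    have : ProperSpace E := FiniteDimensional.proper ℂ E
    infer_instance
  classical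
  choose! U hU hT using hA
  obtain ⟨t, ht1, ht2, ht3⟩ := TopologicalSpace.countable_cover_nhdsWithin (f := U) (s := A)
    (fun x hx => mem_nhdsWithin_of_mem_nhds (hU x hx))
  have hemp : Thin w (∅ : Set E) := ⟨⊥, 0, 0, by simp, fun x hx => hx.elim⟩
  rcases t.eq_empty_or_nonempty with h0 | h0
  · refine ⟨fun _ => ∅, fun _ => hemp, ?_⟩
    rw [h0] at ht3
    intro x hx
    have := ht3 hx
    simp at this
  · obtain ⟨g, hg⟩ := ht2.exists_eq_range h0
    refine ⟨fun i => U (g i) ∩ A, fun i => hT _ (ht1 (by rw [hg]; exact ⟨i, rfl⟩)), ?_⟩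
    intro x hx
    obtain ⟨y, hy, hxy⟩ := Set.mem_iUnion₂.1 (ht3 hx)
    rw [hg] at hy
    obtain ⟨i, rfl⟩ := hy
    exact Set.mem_iUnion.2 ⟨i, hxy, hx⟩

end Pool.Agent.Helper78.SC.Geo
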