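import Mathlib
import Pool.Agent.Helper78.SC.Ax
import Pool.Agent.Helper78.SC.Ext
import Pool.Agent.Helper78.SC.Geo

/-!
# Points with few exponential derivations lie on countably many thin sets
-/

set_option autoImplicit false

namespace Pool.Agent.Helper78.SC.Cov

open MvPolynomial Filter Topology Module
open Pool.Agent.W252 Pool.Agent.TH813.Core Pool.Agent.Helper78.SC.Ax Pool.Agent.Helper78.SC.Geo

variable {n : ℕ} (K : IntermediateField ℚ ℂ)

/-- the point `(z, e^z)` -/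
noncomputable def pt (z : Fin n → ℂ) : Fin n ⊕ Fin n → ℂ := Sum.elim z (fun j => Complex.exp (z j))

/-- the differentials of the coordinates of `(z, e^z)` -/
noncomputable def dX (z : Fin n → ℂ) : Fin n ⊕ Fin n → ((Fin n → ℂ) →L[ℂ] ℂ) :=
  Sum.elim (fun j => ContinuousLinearMap.proj j)
    (fun j => Complex.exp (z j) • (ContinuousLinearMap.proj j : (Fin n → ℂ) →L[ℂ] ℂ))

theorem hasDeriv_pt (z : Fin n → ℂ) (s : Fin n ⊕ Fin n) :
    HasStrictFDerivAt (fun x : Fin n → ℂ => pt x s) (dX z s) z := by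
  rcases s with j | j
  · exact hasStrictFDerivAt_apply j z
  · have h : HasStrictFDerivAt (fun x : Fin n → ℂ => x j)
        (ContinuousLinearMap.proj j : (Fin n → ℂ) →L[ℂ] ℂ) z := hasStrictFDerivAt_apply j z
    exact h.cexp

/-- the differential of `P(z, e^z)` -/
noncomputable def fd (z : Fin n → ℂ) (P : MvPolynomial (Fin n ⊕ Fin n) K) : (Fin n → ℂ) →L[ℂ] ℂ :=
  ∑ s, aeval (pt z) (pderiv s P) • dX z s

theorem fd_apply (z v : Fin n → ℂ) (P : MvPolynomial (Fin n ⊕ Fin n) K) :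
    fd K z P v = Ext.dv (pt z) (Sum.elim v (fun j => Complex.exp (z j) * v j)) P := by
  unfold fd Ext.dv
  rw [sum_apply]
  refine Finset.sum_congr rfl (fun s _ => ?_)
  change aeval (pt z) (pderiv s P) * dX z s v = _
  rw [mul_comm]
  congr 1
  rcases s with j | j <;> rfl

theorem hasDeriv (z : Fin n → ℂ) (P : MvPolynomial (Fin n ⊕ Fin n) K) :
    HasStrictFDerivAt (fun x : Fin n → ℂ => aeval (pt x) P) (fd K z P) z := by
  induction P using MvPolynomial.induction_on with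
  | C a =>
    have h : fd K z (C a) = 0 := by
      ext v
      rw [fd_apply, Ext.dv_C]
      rfl
    rw [h]
    simp only [aeval_C]
    exact hasStrictFDerivAt_const _ _
  | add p q hp hq =>
    have h : fd K z (p + q) = fd K z p + fd K z q := by
      ext v
      rw [fd_apply, Ext.dv_add, ← fd_apply, ← fd_apply]
      rfl
    rw [h]
    simp only [map_add]
    exact hp.add hq
  | mul_X p j hp =>
    have h : fd K z (p * X j) = aeval (pt z) p • dX z j + pt z j • fd K z p := by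
      ext v
      rw [fd_apply, Ext.dv_mul, Ext.dv_X, ← fd_apply, aeval_X]
      change _ = aeval (pt z) p * dX z j v + pt z j * fd K z p v
      congr 2
      rcases j with j | j <;> rfl
    rw [h]
    simp only [map_mul, aeval_X]
    exact hp.mul (hasDeriv_pt z j)

/-- the tangent space -/
noncomputable def Tz (z : Fin n → ℂ) : Submodule ℂ (Fin n → ℂ) :=
  ⨅ P : {P : MvPolynomial (Fin n ⊕ Fin n) K // aeval (pt z) P = 0},
    LinearMap.ker (fd K z P : (Fin n → ℂ) →ₗ[ℂ] ℂ)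

theorem Tz_le (z : Fin n → ℂ) : Tz K z ≤ (Dl K z).map (zv z) := by
  intro v hv
  unfold Tz at hv
  rw [Submodule.mem_iInf] at hv
  have : CharZero K := charZero_of_injective_algebraMap (algebraMap ℚ K).injective
  obtain ⟨D, hD⟩ := Ext.exists_der (K := K) (L := ℂ) (pt z)
    (Sum.elim v (fun j => Complex.exp (z j) * v j)) (fun P hP => by
      rw [← fd_apply]
      exact hv ⟨P, hP⟩)
  refine ⟨D.restrictScalars ℚ, ⟨fun w hw => D.map_algebraMap (⟨w, hw⟩ : K), fun i => ?_⟩, ?_⟩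
  · unfold dlog
    have h1 : (D.restrictScalars ℚ) (Complex.exp (z i)) = Complex.exp (z i) * v i := hD (Sum.inr i)
    have h2 : (D.restrictScalars ℚ) (z i) = v i := hD (Sum.inl i)
    rw [h1, h2, mul_div_cancel_left₀ _ (Complex.exp_ne_zero _)]
  · funext i
    exact hD (Sum.inl i)

/-- finitely many polynomials suffice -/
theorem exists_finset (z : Fin n → ℂ) : ∃ S : Finset (MvPolynomial (Fin n ⊕ Fin n) K),
    (∀ P ∈ S, aeval (pt z) P = 0) ∧
      finrank ℂ ↥(⨅ P : S, LinearMap.ker (fd K z P : (Fin n → ℂ) →ₗ[ℂ] ℂ)) ≤ wd K z := by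
  classical
  let W : Finset (MvPolynomial (Fin n ⊕ Fin n) K) → Submodule ℂ (Fin n → ℂ) := fun S =>
    ⨅ P : S, LinearMap.ker (fd K z P : (Fin n → ℂ) →ₗ[ℂ] ℂ)
  have hex : ∃ m : ℕ, ∃ S : Finset (MvPolynomial (Fin n ⊕ Fin n) K),
      (∀ P ∈ S, aeval (pt z) P = 0) ∧ finrank ℂ (W S) = m := ⟨_, ∅, by simp, rfl⟩
  obtain ⟨S, hS, hSd⟩ := Nat.find_spec hex
  have hmin := fun m h => Nat.find_min hex (m := m) h
  refine ⟨S, hS, ?_⟩
  have h1 : W S ≤ Tz K z := by
    unfold Tz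
    refine le_iInf (fun P => ?_)
    by_contra hcon
    have h2 : W (insert P.1 S) < W S := by
      apply lt_of_le_of_ne
      · exact le_iInf (fun Q => iInf_le_of_le ⟨Q.1, Finset.mem_insert_of_mem Q.2⟩ le_rfl)
      · intro h3
        apply hcon
        rw [← h3]
        exact iInf_le_of_le ⟨P.1, Finset.mem_insert_self _ _⟩ le_rfl
    have h3 := Submodule.finrank_lt_finrank_of_lt h2
    rw [hSd] at h3
    apply hmin _ h3
    refine ⟨_, fun Q hQ => ?_, rfl⟩
    rcases Finset.mem_insert.1 hQ with rfl | hQ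
    · exact P.2
    · exact hS Q hQ
  exact Submodule.finrank_mono (h1.trans (Tz_le K z))

/-- **Covering by thin sets.** -/
theorem cov (hK : Countable K) (w : ℕ) (A : Set (Fin n → ℂ)) (hA : ∀ z ∈ A, wd K z ≤ w) :
    ∃ M : ℕ → Set (Fin n → ℂ), (∀ i, Thin w (M i)) ∧ A ⊆ ⋃ i, M i := by
  classical
  have : Countable (MvPolynomial (Fin n ⊕ Fin n) K) := by
    have h1 : Cardinal.mk (MvPolynomial (Fin n ⊕ Fin n) K) ≤ Cardinal.aleph0 := by
      refine (MvPolynomial.cardinalMk_le_max).trans ?_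
      rw [max_le_iff, max_le_iff]
      exact ⟨⟨Cardinal.mk_le_aleph0, Cardinal.mk_le_aleph0⟩, le_rfl⟩
    exact Cardinal.mk_le_aleph0_iff.1 h1
  let B : Finset (MvPolynomial (Fin n ⊕ Fin n) K) → Set (Fin n → ℂ) := fun S =>
    {z | z ∈ A ∧ (∀ P ∈ S, aeval (pt z) P = 0) ∧
      finrank ℂ ↥(⨅ P : S, LinearMap.ker (fd K z P : (Fin n → ℂ) →ₗ[ℂ] ℂ)) ≤ w}
  have hB : ∀ S, ∃ M : ℕ → Set (Fin n → ℂ), (∀ i, Thin w (M i)) ∧ B S ⊆ ⋃ i, M i := by
    intro S
    apply Geo.cover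
    rintro z ⟨hz, hz1, hz2⟩
    obtain ⟨U, hU, hT⟩ := Geo.thin_near (fun (P : S) (x : Fin n → ℂ) => aeval (pt x) P.1)
      (fun P => fd K z P.1) z (fun P => hasDeriv K z P.1) w hz2
    refine ⟨U, hU, hT.mono ?_⟩
    rintro x ⟨hxU, hx⟩
    exact ⟨hxU, fun P => hx.2.1 P.1 P.2⟩
  choose M hM1 hM2 using hB
  have : Countable (Finset (MvPolynomial (Fin n ⊕ Fin n) K) × ℕ) := inferInstance
  obtain ⟨g, hg⟩ := exists_surjective_nat (Finset (MvPolynomial (Fin n ⊕ Fin n) K) × ℕ)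
  refine ⟨fun i => M (g i).1 (g i).2, fun i => hM1 _ _, ?_⟩
  intro z hz
  obtain ⟨S, hS1, hS2⟩ := exists_finset K z
  have h1 : z ∈ B S := ⟨hz, hS1, hS2.trans (hA z hz)⟩
  obtain ⟨j, hj⟩ := Set.mem_iUnion.1 (hM2 S h1)
  obtain ⟨i, hi⟩ := hg (S, j)
  refine Set.mem_iUnion.2 ⟨i, ?_⟩
  rw [hi]
  exact hj

theorem dimH_le (hK : Countable K) (w : ℕ) (A : Set (Fin n → ℂ)) (hA : ∀ z ∈ A, wd K z ≤ w) :
    dimH A ≤ ((2 * w : ℕ) : ENNReal) := by
  obtain ⟨M, hM, hsub⟩ := cov K hK w A hA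
  refine (dimH_mono hsub).trans ?_
  rw [dimH_iUnion]
  exact iSup_le (fun i => (hM i).dimH_le)

theorem countable (hK : Countable K) (A : Set (Fin n → ℂ)) (hA : ∀ z ∈ A, wd K z ≤ 0) :
    A.Countable := by
  obtain ⟨M, hM, hsub⟩ := cov K hK 0 A hA
  exact (Set.countable_iUnion (fun i => (hM i).subsingleton.countable)).mono hsub

end Pool.Agent.Helper78.SC.Cov
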