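import Mathlib
import Pool.Graph.R_seed8.H135R2.VS.Der
import Pool.Graph.R_seed8.H327R2.SC.Der
import Pool.Graph.R_seed8.H327R2.SC.MultVec
import Pool.Graph.R_seed8.TH813.Rank

/-!
# The transcendence degree as a rank of derivations, over any field of characteristic zero
-/

set_option autoImplicit false

namespace Pool.Agent.Helper78.SC.Trd

open Module Pool.Agent.H327R2.SC Pool.Agent.TH813.Rank

variable {K L : Type*} [Field K] [Field L] [Algebra K L]

/-- the values of derivations -/
noncomputable def vl {σ : Type*} (x : σ → L) : Derivation K L L →ₗ[L] (σ → L) where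
  toFun := fun D s => D (x s)
  map_add' := fun _ _ => rfl
  map_smul' := fun _ _ => rfl

theorem mem_ker {σ : Type*} (x : σ → L) (D : Derivation K L L) :
    D ∈ LinearMap.ker (vl x : Derivation K L L →ₗ[L] (σ → L)) ↔ ∀ s, D (x s) = 0 := by
  rw [LinearMap.mem_ker]
  exact ⟨fun h s => congrFun h s, fun h => funext h⟩

/-- the elements killed by a derivation -/
noncomputable def kf (D : Derivation K L L) : IntermediateField K L where
  carrier := {w | D w = 0}
  mul_mem' := by
    intro a b ha hb
    have ha' : D a = 0 := ha
    have hb' : D b = 0 := hb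
    change D (a * b) = 0
    rw [Derivation.leibniz, ha', hb', smul_zero, smul_zero, add_zero]
  add_mem' := by
    intro a b ha hb
    have ha' : D a = 0 := ha
    have hb' : D b = 0 := hb
    change D (a + b) = 0
    rw [map_add, ha', hb', add_zero]
  algebraMap_mem' := fun r => D.map_algebraMap r
  inv_mem' := by
    intro a ha
    have ha' : D a = 0 := ha
    change D a⁻¹ = 0
    rw [Derivation.leibniz_inv, ha', smul_zero]

theorem kills_field [CharZero K] {F : IntermediateField K L} {ι : Type*} {y : ι → F}
    (hy : IsTranscendenceBasis K y) (D : Derivation K L L) (hD : ∀ i, D (y i : L) = 0) :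
    ∀ u ∈ F, D u = 0 := by
  intro u hu
  have h1 : Algebra.IsAlgebraic (IntermediateField.adjoin K (Set.range y)) F := hy.isAlgebraic_field
  have h2 : ∀ w ∈ IntermediateField.adjoin K (Set.range y), D (w : L) = 0 := by
    intro w hw
    induction hw using IntermediateField.adjoin_induction with
    | mem x hx =>
      obtain ⟨i, rfl⟩ := hx
      exact hD i
    | algebraMap x => exact D.map_algebraMap x
    | add x y _ _ hx hy => rw [IntermediateField.coe_add, map_add, hx, hy, add_zero]
    | inv x _ hx => rw [IntermediateField.coe_inv, Derivation.leibniz_inv, hx, smul_zero]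
    | mul x y _ _ hx hy =>
      rw [IntermediateField.coe_mul, Derivation.leibniz, hx, hy, smul_zero, smul_zero, add_zero]
  obtain ⟨p, hp, hp0⟩ := h1.isAlgebraic (⟨u, hu⟩ : F)
  apply der_alg (kf D) D (fun x hx => hx)
  let φ : IntermediateField.adjoin K (Set.range y) →+* kf D :=
    { toFun := fun w => ⟨((w : F) : L), h2 w w.2⟩
      map_one' := rfl
      map_mul' := fun _ _ => rfl
      map_zero' := rfl
      map_add' := fun _ _ => rfl }
  refine ⟨p.map φ, (Polynomial.map_ne_zero_iff φ.injective).2 hp, ?_⟩
  have h3 := congrArg (algebraMap F L) hp0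
  rw [map_zero, Polynomial.aeval_def, Polynomial.hom_eval₂] at h3
  rw [Polynomial.aeval_def, Polynomial.eval₂_map]
  exact h3

theorem ker_le {σ κ : Type*} (x : σ → L) (u : κ → L)
    (hu : ∀ k, u k ∈ IntermediateField.adjoin K (Set.range x)) :
    LinearMap.ker (vl x : Derivation K L L →ₗ[L] (σ → L)) ≤
      LinearMap.ker (vl u : Derivation K L L →ₗ[L] (κ → L)) := by
  intro D hD
  rw [mem_ker] at hD ⊢
  intro k
  exact kills_adjoin D (by rintro _ ⟨s, rfl⟩; exact hD s) _ (hu k)

theorem range_top [CharZero K] {κ : Type*} (u : κ → L) (hu : AlgebraicIndependent K u) :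
    LinearMap.range (vl u : Derivation K L L →ₗ[L] (κ → L)) = ⊤ := by
  rw [LinearMap.range_eq_top]
  intro v
  obtain ⟨D, hD⟩ := Pool.Agent.H135R2.VS.exists_der hu v
  exact ⟨D, funext hD⟩

variable {σ : Type*} [Fintype σ]

/-- **The transcendence degree is the rank of the derivations.** -/
theorem trdeg_eq [CharZero K] (x : σ → L) :
    Algebra.trdeg K (IntermediateField.adjoin K (Set.range x)) =
      ((finrank L (LinearMap.range (vl x : Derivation K L L →ₗ[L] (σ → L))) : ℕ) : Cardinal) := by
  classical
  set F := IntermediateField.adjoin K (Set.range x) with hF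
  obtain ⟨ι, y, hy⟩ := exists_isTranscendenceBasis' K F
  rw [← hy.cardinalMk_eq_trdeg]
  have hyL : AlgebraicIndependent K (fun i => (y i : L)) := hy.1.map' (f := F.val) F.val.injective
  have hxF : ∀ s, x s ∈ F := fun s => IntermediateField.subset_adjoin K _ ⟨s, rfl⟩
  have hfin : Finite ι := by
    by_contra hinf
    rw [not_finite_iff_infinite] at hinf
    let d := finrank L (LinearMap.range (vl x : Derivation K L L →ₗ[L] (σ → L)))
    let e' : Fin (d + 1) → ι := fun k => Infinite.natEmbedding ι k
    have he' : Function.Injective e' := fun a b h =>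
      Fin.ext ((Infinite.natEmbedding ι).injective h)
    have h1 := finrank_range_le _ _ (ker_le (K := K) x (fun k => (y (e' k) : L))
      (fun k => (y (e' k)).2))
    have h3 : AlgebraicIndependent K (fun k => (y (e' k) : L)) := hyL.comp e' he'
    rw [range_top _ h3, finrank_top, finrank_fintype_fun_eq_card, Fintype.card_fin] at h1
    change d + 1 ≤ d at h1
    omega
  have := Fintype.ofFinite ι
  have h2 : LinearMap.ker (vl x : Derivation K L L →ₗ[L] (σ → L)) =
      LinearMap.ker (vl (fun k => (y k : L)) : Derivation K L L →ₗ[L] (ι → L)) := by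
    apply le_antisymm (ker_le x _ (fun k => (y k).2))
    intro D hD
    rw [mem_ker] at hD ⊢
    intro s
    exact kills_field hy D hD _ (hxF s)
  rw [finrank_range_eq _ _ h2, range_top _ hyL, finrank_top,
    finrank_fintype_fun_eq_card, Cardinal.mk_fintype]

end Pool.Agent.Helper78.SC.Trd
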