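import Mathlib
import Pool.Agent.Helper78.SC.Cov
import Pool.Agent.Helper78.SC.Trd

/-!
# The transcendence degree of `K(z, e^z)` and the rank
-/

set_option autoImplicit false

namespace Pool.Agent.Helper78.SC.Td

open Module Pool.Agent.W252 Pool.Agent.TH813.Core Pool.Agent.Helper78.SC.Ax
open Pool.Agent.Helper78.SC.Cov

variable {n : ℕ}

/-- the transcendence degree of `K(z, e^z)` over `K` -/
noncomputable def td (K : IntermediateField ℚ ℂ) (z : Fin n → ℂ) : Cardinal :=
  Algebra.trdeg K (IntermediateField.adjoin K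
    (Set.range z ∪ Set.range fun i => Complex.exp (z i)))

theorem range_pt (z : Fin n → ℂ) :
    Set.range (pt z) = Set.range z ∪ Set.range fun i => Complex.exp (z i) := by
  unfold pt
  rw [Set.Sum.elim_range]

/-- the scaling of the last coordinates -/
noncomputable def sc (c : Fin n ⊕ Fin n → ℂ) : (Fin n ⊕ Fin n → ℂ) →ₗ[ℂ] (Fin n ⊕ Fin n → ℂ) where
  toFun := fun x s => c s * x s
  map_add' := fun x y => by funext s; simp [mul_add]
  map_smul' := fun r x => by funext s; simp [mul_left_comm]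

/-- a derivation over `K` from one over `ℚ` -/
noncomputable def up (K : IntermediateField ℚ ℂ) (D : Derivation ℚ ℂ ℂ) (hD : D ∈ VK K) :
    Derivation K ℂ ℂ := Pool.Agent.H327R2.SC.upgrade K D hD

theorem td_eq (K : IntermediateField ℚ ℂ) (z : Fin n → ℂ) : td K z = ((rk K z : ℕ) : Cardinal) := by
  have : CharZero K := charZero_of_injective_algebraMap (algebraMap ℚ K).injective
  unfold td
  rw [← range_pt, Trd.trdeg_eq]
  congr 1
  apply le_antisymm
  · have h : LinearMap.range (Trd.vl (pt z) : Derivation K ℂ ℂ →ₗ[ℂ] (Fin n ⊕ Fin n → ℂ)) ≤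
        ((VK K).map (ev z)).map (sc (Sum.elim (fun _ => 1) (fun j => Complex.exp (z j)))) := by
      rintro _ ⟨D, rfl⟩
      refine ⟨ev z (D.restrictScalars ℚ), ⟨D.restrictScalars ℚ, ?_, rfl⟩, ?_⟩
      · exact fun w hw => D.map_algebraMap (⟨w, hw⟩ : K)
      · funext s
        rcases s with j | j
        · exact one_mul _
        · change Complex.exp (z j) * (D (Complex.exp (z j)) / Complex.exp (z j)) = _
          rw [mul_div_cancel₀ _ (Complex.exp_ne_zero _)]
          rfl
    exact (Submodule.finrank_mono h).trans (Submodule.finrank_map_le _ _)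
  · have h : (VK K).map (ev z) ≤
        (LinearMap.range (Trd.vl (pt z) : Derivation K ℂ ℂ →ₗ[ℂ] (Fin n ⊕ Fin n → ℂ))).map
          (sc (Sum.elim (fun _ => 1) (fun j => (Complex.exp (z j))⁻¹))) := by
      rintro _ ⟨D, hD, rfl⟩
      refine ⟨_, ⟨up K D hD, rfl⟩, ?_⟩
      funext s
      rcases s with j | j
      · exact one_mul _
      · change (Complex.exp (z j))⁻¹ * D (Complex.exp (z j)) = dlog D (z j)
        unfold dlog
        rw [div_eq_inv_mul]
    exact (Submodule.finrank_mono h).trans (Submodule.finrank_map_le _ _)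

/-! ### the upper bounds -/

/-- the linearly independent tuples `z` for which `K(z, e^z)` has transcendence degree at most `k` -/
def Exc (K : IntermediateField ℚ ℂ) (n k : ℕ) : Set (Fin n → ℂ) :=
  {z | LinearIndependent ℚ z ∧ td K z ≤ k}

theorem dimH_Exc_le (K : IntermediateField ℚ ℂ) (hK : Countable K) (n k : ℕ) :
    dimH (Exc K n k) ≤ ((2 * (k / 2) : ℕ) : ENNReal) := by
  apply Cov.dimH_le K hK
  rintro z ⟨-, hz⟩
  rw [td_eq] at hz
  have h1 : rk K z ≤ k := by exact_mod_cast hz
  have h2 := two_wd_le (K := K) (z := z)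
  omega

theorem dimH_Exc_alg (K : IntermediateField ℚ ℂ) (hK : Countable K)
    (hK2 : ∀ w ∈ K, IsAlgebraic ℚ w) (n k : ℕ) (hk : k < 2 * n) :
    dimH (Exc K n k) ≤ ((2 * ((k - 1) / 2) : ℕ) : ENNReal) := by
  apply Cov.dimH_le K hK
  rintro z ⟨hzl, hz⟩
  rw [td_eq] at hz
  have h1 : rk K z ≤ k := by exact_mod_cast hz
  have h2 := two_wd_lt hK2 hzl (by omega)
  omega

theorem countable_Exc (K : IntermediateField ℚ ℂ) (hK : Countable K) (n k : ℕ) (hk : k ≤ 1) :
    (Exc K n k).Countable := by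
  apply Cov.countable K hK
  rintro z ⟨-, hz⟩
  rw [td_eq] at hz
  have h1 : rk K z ≤ k := by exact_mod_cast hz
  have h2 := two_wd_le (K := K) (z := z)
  omega

theorem countable_Exc_alg (K : IntermediateField ℚ ℂ) (hK : Countable K)
    (hK2 : ∀ w ∈ K, IsAlgebraic ℚ w) (n k : ℕ) (hk : k < 2 * n) (hk2 : k ≤ 2) :
    (Exc K n k).Countable := by
  apply Cov.countable K hK
  rintro z ⟨hzl, hz⟩
  rw [td_eq] at hz
  have h1 : rk K z ≤ k := by exact_mod_cast hz
  have h2 := two_wd_lt hK2 hzl (by omega)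
  omega

end Pool.Agent.Helper78.SC.Td
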