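import Mathlib
import Pool.Agent.Helper78.SC.Td

/-!
# Lower bounds for the dimension of the sets of points with small transcendence degree
-/

set_option autoImplicit false

namespace Pool.Agent.Helper78.SC.Low

open Module MeasureTheory Filter Topology Pool.Agent.Helper78.SC.Td Pool.Agent.Helper78.SC.Cov
open scoped ENNReal

/-- a space of finite dimension does not contain all algebraic numbers -/
theorem exists_alg (W : Submodule ℚ ℂ) [FiniteDimensional ℚ W] : ∃ β : ℂ, IsAlgebraic ℚ β ∧ β ∉ W := by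
  obtain ⟨p, hp1, hp⟩ := Nat.exists_infinite_primes (finrank ℚ W + 2)
  have hp0 : p ≠ 0 := hp.ne_zero
  set θ := Complex.exp (2 * Real.pi * Complex.I / p) with hθ
  have h1 : IsPrimitiveRoot θ p := Complex.isPrimitiveRoot_exp p hp0
  have h2 : (minpoly ℚ θ).natDegree = p - 1 := by
    rw [← Polynomial.cyclotomic_eq_minpoly_rat h1 hp.pos, Polynomial.natDegree_cyclotomic,
      Nat.totient_prime hp]
  have hint : IsIntegral ℚ θ := (h1.isIntegral hp.pos).tower_top
  have h3 : LinearIndependent ℚ (fun i : Fin (minpoly ℚ θ).natDegree => θ ^ (i : ℕ)) :=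
    linearIndependent_pow θ
  by_contra hcon
  push Not at hcon
  have h4 : ∀ i : Fin (minpoly ℚ θ).natDegree, θ ^ (i : ℕ) ∈ W := fun i =>
    hcon _ (hint.isAlgebraic.pow _)
  have h5 : LinearIndependent ℚ (fun i : Fin (minpoly ℚ θ).natDegree => (⟨θ ^ (i : ℕ), h4 i⟩ : W)) := by
    apply LinearIndependent.of_comp W.subtype
    exact h3
  have h6 := h5.fintype_card_le_finrank
  rw [Fintype.card_fin, h2] at h6
  omega

/-- algebraic numbers which are independent modulo given numbers -/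
theorem exists_algs {ι : Type} [Finite ι] (c : ι → ℂ) (hc : LinearIndependent ℚ c) (r : ℕ) :
    ∃ β : Fin r → ℂ, (∀ i, IsAlgebraic ℚ (β i)) ∧ LinearIndependent ℚ (Sum.elim c β) := by
  induction r with
  | zero =>
    refine ⟨fun i => i.elim0, fun i => i.elim0, ?_⟩
    rw [← linearIndependent_equiv (Equiv.sumEmpty ι (Fin 0)).symm]
    exact hc
  | succ r ih =>
    obtain ⟨β, hβ, hli⟩ := ih
    have hfin : FiniteDimensional ℚ (Submodule.span ℚ (Set.range (Sum.elim c β))) :=
      FiniteDimensional.span_of_finite ℚ (Set.finite_range _)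
    obtain ⟨b, hb, hbW⟩ := exists_alg (Submodule.span ℚ (Set.range (Sum.elim c β)))
    refine ⟨Fin.cons b β, fun i => Fin.cases hb hβ i, ?_⟩
    have h1 := hli.option hbW
    let e : ι ⊕ Fin (r + 1) ≃ Option (ι ⊕ Fin r) :=
      { toFun := Sum.elim (fun i => some (Sum.inl i))
          (fun j => Fin.cases none (fun k => some (Sum.inr k)) j)
        invFun := fun o => o.elim (Sum.inr 0) (Sum.elim Sum.inl (fun k => Sum.inr k.succ))
        left_inv := by
          rintro (i | j)
          · rfl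
          · refine Fin.cases ?_ (fun k => ?_) j <;> rfl
        right_inv := by
          rintro (_ | (i | k)) <;> rfl }
    rw [← linearIndependent_equiv e] at h1
    have h2 : (fun o : Option (ι ⊕ Fin r) => o.casesOn' b (Sum.elim c β)) ∘ e =
        Sum.elim c (Fin.cons b β : Fin (r + 1) → ℂ) := by
      funext s
      rcases s with i | j
      · rfl
      · refine Fin.cases ?_ (fun k => ?_) j <;> rfl
    rw [h2] at h1
    exact h1

/-- a set of full measure has full dimension -/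
theorem dimH_full {E : Type*} [NormedAddCommGroup E] [NormedSpace ℝ E] [FiniteDimensional ℝ E]
    [MeasurableSpace E] [BorelSpace E] (s : Set E)
    (hs : Measure.hausdorffMeasure (finrank ℝ E : ℝ) sᶜ = 0) :
    ((finrank ℝ E : ℕ) : ℝ≥0∞) ≤ dimH s := by
  by_contra hcon
  push Not at hcon
  have h1 : Measure.hausdorffMeasure (finrank ℝ E : ℝ) s = 0 := by
    have := hausdorffMeasure_of_dimH_lt (d := (finrank ℝ E : NNReal)) (s := s) (by exact_mod_cast hcon)
    exact_mod_cast this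
  have h2 : Measure.hausdorffMeasure (finrank ℝ E : ℝ) (Set.univ : Set E) = 0 := by
    rw [← Set.union_compl_self s]
    exact measure_union_null h1 hs
  have h3 : (Measure.hausdorffMeasure (finrank ℝ E : ℝ) : Measure E).IsAddHaarMeasure :=
    isAddHaarMeasure_hausdorffMeasure
  have h4 : (0 : ℝ≥0∞) < Measure.hausdorffMeasure (finrank ℝ E : ℝ) (Set.univ : Set E) :=
    isOpen_univ.measure_pos _ Set.univ_nonempty
  exact h4.ne' h2

/-- the points which are independent modulo a family of numbers -/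
theorem null_dep {ι : Type} [Finite ι] (c : ι → ℂ) (hc : LinearIndependent ℚ c) (m : ℕ)
    (μ : Measure (Fin m → ℂ)) [μ.IsAddHaarMeasure] :
    μ {y : Fin m → ℂ | LinearIndependent ℚ (Sum.elim c y)}ᶜ = 0 := by
  have := Fintype.ofFinite ι
  have hsub : {y : Fin m → ℂ | LinearIndependent ℚ (Sum.elim c y)}ᶜ ⊆
      ⋃ q : {q : (ι → ℚ) × (Fin m → ℚ) // q.2 ≠ 0},
        {y : Fin m → ℂ | ∑ j, (q.1.2 j : ℂ) * y j = -∑ i, (q.1.1 i : ℂ) * c i} := by
    intro y hy
    have hy' : ¬ LinearIndependent ℚ (Sum.elim c y) := hy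
    rw [Fintype.not_linearIndependent_iff] at hy'
    obtain ⟨g, hg, i, hi⟩ := hy'
    rw [Fintype.sum_sum_type] at hg
    simp only [Sum.elim_inl, Sum.elim_inr, Rat.smul_def] at hg
    refine Set.mem_iUnion.2 ⟨⟨(fun i => g (Sum.inl i), fun j => g (Sum.inr j)), ?_⟩, ?_⟩
    · intro h0
      have h1 : ∀ j, g (Sum.inr j) = 0 := fun j => congrFun h0 j
      simp only [h1, Rat.cast_zero, zero_mul, Finset.sum_const_zero, add_zero] at hg
      have h2 := Fintype.linearIndependent_iff.1 hc (fun i => g (Sum.inl i)) (by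
        simpa only [Rat.smul_def] using hg)
      rcases i with i | j
      · exact hi (h2 i)
      · exact hi (h1 j)
    · change ∑ j, (g (Sum.inr j) : ℂ) * y j = -∑ i, (g (Sum.inl i) : ℂ) * c i
      linear_combination hg
  have : Countable {q : (ι → ℚ) × (Fin m → ℚ) // q.2 ≠ 0} := inferInstance
  refine measure_mono_null hsub (measure_iUnion_null (fun q => ?_))
  let f : (Fin m → ℂ) →ₗ[ℝ] ℂ := (∑ j, (q.1.2 j : ℂ) • LinearMap.proj (R := ℂ) (φ := fun _ : Fin m => ℂ) j).restrictScalars ℝ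
  have hf : ∀ y, f y = ∑ j, (q.1.2 j : ℂ) * y j := by
    intro y
    simp [f]
  let s : AffineSubspace ℝ (Fin m → ℂ) :=
    (AffineSubspace.mk' (-∑ i, (q.1.1 i : ℂ) * c i) (⊥ : Submodule ℝ ℂ)).comap f.toAffineMap
  have hs : {y : Fin m → ℂ | ∑ j, (q.1.2 j : ℂ) * y j = -∑ i, (q.1.1 i : ℂ) * c i} = s := by
    ext y
    rw [Set.mem_ofPred_eq, AffineSubspace.coe_comap, Set.mem_preimage, SetLike.mem_coe,
      AffineSubspace.mem_mk', Submodule.mem_bot, vsub_eq_sub, sub_eq_zero]
    change _ ↔ f y = _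
    rw [hf]
  rw [hs]
  apply Measure.addHaar_affineSubspace
  intro htop
  obtain ⟨j, hj⟩ : ∃ j, q.1.2 j ≠ 0 := by
    by_contra hcon
    push Not at hcon
    exact q.2 (funext hcon)
  have h1 : ∀ y : Fin m → ℂ, ∑ j, (q.1.2 j : ℂ) * y j = -∑ i, (q.1.1 i : ℂ) * c i := by
    intro y
    have : y ∈ (s : Set (Fin m → ℂ)) := by rw [htop]; trivial
    rw [← hs] at this
    exact this
  have h2 := h1 0
  have h3 := h1 (Pi.single j 1)
  rw [← h2] at h3
  simp only [Pi.zero_apply, mul_zero, Finset.sum_const_zero] at h3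
  rw [Finset.sum_eq_single j] at h3
  · rw [Pi.single_eq_same, mul_one] at h3
    exact hj (by exact_mod_cast h3)
  · intro b _ hb
    rw [Pi.single_eq_of_ne hb, mul_zero]
  · intro h
    exact absurd (Finset.mem_univ j) h

/-! ### ranks -/

/-- the rank of the values of the derivations over `K` -/
noncomputable def R (K : IntermediateField ℚ ℂ) {σ : Type*} (x : σ → ℂ) : ℕ :=
  finrank ℂ (LinearMap.range (Trd.vl x : Derivation K ℂ ℂ →ₗ[ℂ] (σ → ℂ)))

theorem R_mono (K : IntermediateField ℚ ℂ) {σ τ : Type*} [Finite σ] (x : σ → ℂ) (y : τ → ℂ)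
    (h : ∀ D : Derivation K ℂ ℂ, (∀ s, D (x s) = 0) → ∀ t, D (y t) = 0) : R K y ≤ R K x := by
  apply Pool.Agent.TH813.Rank.finrank_range_le
  intro D hD
  rw [Trd.mem_ker] at hD ⊢
  exact h D hD

theorem R_sum (K : IntermediateField ℚ ℂ) {σ τ : Type*} [Finite σ] [Fintype τ] (x : σ → ℂ)
    (y : τ → ℂ) : R K (Sum.elim x y) ≤ R K x + Fintype.card τ := by
  let V : Submodule ℂ (σ ⊕ τ → ℂ) :=
    LinearMap.range (Trd.vl (Sum.elim x y) : Derivation K ℂ ℂ →ₗ[ℂ] (σ ⊕ τ → ℂ))
  let f : V →ₗ[ℂ] (σ → ℂ) := LinearMap.funLeft ℂ ℂ (Sum.inl : σ → σ ⊕ τ) ∘ₗ V.subtype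
  have h1 := f.finrank_range_add_finrank_ker
  have h2 : finrank ℂ (LinearMap.range f) ≤ R K x := by
    apply Submodule.finrank_mono
    rintro _ ⟨⟨_, D, rfl⟩, rfl⟩
    exact ⟨D, rfl⟩
  have h3 : finrank ℂ (LinearMap.ker f) ≤ Fintype.card τ := by
    rw [← finrank_fintype_fun_eq_card ℂ (η := τ)]
    let g : LinearMap.ker f →ₗ[ℂ] (τ → ℂ) :=
      LinearMap.funLeft ℂ ℂ (Sum.inr : τ → σ ⊕ τ) ∘ₗ V.subtype ∘ₗ (LinearMap.ker f).subtype
    have hg2 : Function.Injective g := by
      rintro ⟨⟨a, ha⟩, ha0⟩ ⟨⟨b, hb⟩, hb0⟩ hab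
      apply Subtype.ext
      apply Subtype.ext
      funext s
      rcases s with s | t
      · have h3 : a (Sum.inl s) = 0 := congrFun (LinearMap.mem_ker.1 ha0) s
        have h4 : b (Sum.inl s) = 0 := congrFun (LinearMap.mem_ker.1 hb0) s
        exact h3.trans h4.symm
      · exact congrFun hab t
    exact LinearMap.finrank_le_finrank_of_injective hg2
  have h4 : R K (Sum.elim x y) = finrank ℂ V := rfl
  omega

theorem td_eq_R (K : IntermediateField ℚ ℂ) {n : ℕ} (z : Fin n → ℂ) :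
    td K z = ((R K (pt z) : ℕ) : Cardinal) := by
  have : CharZero K := charZero_of_injective_algebraMap (algebraMap ℚ K).injective
  unfold td
  rw [← range_pt, Trd.trdeg_eq]
  rfl

theorem kills_alg (K : IntermediateField ℚ ℂ) (D : Derivation K ℂ ℂ) {β : ℂ}
    (hβ : IsAlgebraic ℚ β) : D β = 0 :=
  Pool.Agent.H327R2.SC.der_alg (K := ℚ) (L := ℂ) ⊥ (D.restrictScalars ℚ) (fun x hx => by
    obtain ⟨q, rfl⟩ := IntermediateField.mem_bot.1 hx
    exact (D.restrictScalars ℚ).map_algebraMap q) (hβ.tower_top _)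

/-- **The lower bound.** -/
theorem le_dimH_Exc (K : IntermediateField ℚ ℂ) {h m r n k : ℕ} (hn : h + m + r = n)
    (c : Fin h → ℂ) (hc : LinearIndependent ℚ c) (d : ℕ) (hd : td K c ≤ d)
    (hk : d + 2 * m + r ≤ k) : ((2 * m : ℕ) : ℝ≥0∞) ≤ dimH (Exc K n k) := by
  obtain ⟨β, hβ, hli⟩ := exists_algs c hc r
  let e : Fin n ≃ (Fin h ⊕ Fin r) ⊕ Fin m :=
    (finCongr (by omega : n = (h + r) + m)).trans
      (finSumFinEquiv.symm.trans (Equiv.sumCongr finSumFinEquiv.symm (Equiv.refl _)))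
  let Z : (Fin m → ℂ) → (Fin n → ℂ) := fun y => Sum.elim (Sum.elim c β) y ∘ e
  let G : Set (Fin m → ℂ) := {y | LinearIndependent ℚ (Sum.elim (Sum.elim c β) y)}
  have hZ : Z '' G ⊆ Exc K n k := by
    rintro _ ⟨y, hy, rfl⟩
    refine ⟨(linearIndependent_equiv e).2 hy, ?_⟩
    rw [td_eq_R] at hd ⊢
    have hd' : R K (pt c) ≤ d := by exact_mod_cast hd
    have h1 : R K (pt (Z y)) ≤ R K (Sum.elim (pt c) (Sum.elim (pt y) (fun i => Complex.exp (β i)))) := by
      apply R_mono
      intro D hD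
      have e1 : ∀ i, D (c i) = 0 := fun i => hD (Sum.inl (Sum.inl i))
      have e2 : ∀ i, D (Complex.exp (c i)) = 0 := fun i => hD (Sum.inl (Sum.inr i))
      have e3 : ∀ i, D (y i) = 0 := fun i => hD (Sum.inr (Sum.inl (Sum.inl i)))
      have e4 : ∀ i, D (Complex.exp (y i)) = 0 := fun i => hD (Sum.inr (Sum.inl (Sum.inr i)))
      have e5 : ∀ i, D (Complex.exp (β i)) = 0 := fun i => hD (Sum.inr (Sum.inr i))
      have e6 : ∀ i, D (β i) = 0 := fun i => kills_alg K D (hβ i)
      have e7 : ∀ s, D (Sum.elim (Sum.elim c β) y s) = 0 ∧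
          D (Complex.exp (Sum.elim (Sum.elim c β) y s)) = 0 := by
        rintro ((i | i) | i)
        · exact ⟨e1 i, e2 i⟩
        · exact ⟨e6 i, e5 i⟩
        · exact ⟨e3 i, e4 i⟩
      rintro (j | j)
      · exact (e7 (e j)).1
      · exact (e7 (e j)).2
    have h2 := R_sum K (pt c) (Sum.elim (pt y) (fun i => Complex.exp (β i)))
    have h3 : Fintype.card ((Fin m ⊕ Fin m) ⊕ Fin r) = 2 * m + r := by
      simp only [Fintype.card_sum, Fintype.card_fin]
      ring
    rw [h3] at h2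
    exact_mod_cast (by omega : R K (pt (Z y)) ≤ k)
  let P : (Fin n → ℂ) →L[ℂ] (Fin m → ℂ) :=
    ContinuousLinearMap.pi (fun i => ContinuousLinearMap.proj (e.symm (Sum.inr i)))
  have hP : ∀ y, P (Z y) = y := by
    intro y
    funext i
    change Sum.elim (Sum.elim c β) y (e (e.symm (Sum.inr i))) = y i
    rw [Equiv.apply_symm_apply]
    rfl
  have h1 : G = P '' (Z '' G) := by
    rw [← Set.image_comp]
    have : (P ∘ Z) = id := funext hP
    rw [this, Set.image_id]
  have h2 : dimH G ≤ dimH (Exc K n k) := by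
    rw [h1]
    exact (P.lipschitz.dimH_image_le _).trans (dimH_mono hZ)
  have h3 : finrank ℝ (Fin m → ℂ) = 2 * m := by
    rw [finrank_real_of_complex, finrank_fintype_fun_eq_card, Fintype.card_fin]
  have h4 : (Measure.hausdorffMeasure (finrank ℝ (Fin m → ℂ) : ℝ) :
      Measure (Fin m → ℂ)).IsAddHaarMeasure := isAddHaarMeasure_hausdorffMeasure
  have h5 := dimH_full G (null_dep (Sum.elim c β) hli m _)
  rw [h3] at h5
  exact h5.trans h2

end Pool.Agent.Helper78.SC.Low
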